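import Mathlib.CategoryTheory.Category.Init
import Mathlib.Tactic.Monotonicity.Lemmas
import Mathlib.Analysis.Normed.Group.Tannery
import Mathlib.Analysis.Normed.Lp.lpHolder
import Mathlib.MeasureTheory.Measure.RegularityCompacts
import Mathlib.Data.Set.Finite.List
import Mathlib.Topology.Separation.CompletelyRegular
import Mathlib.Order.CompletePartialOrder
import Mathlib.Probability.ProductMeasure
import Mathlib.Probability.Distributions.Uniform

-- ======== part 0: formerly Pool.Agent.MP_0f15b2_an.Tree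
section MrgPart0

/-!
Combinatorial part of the counterexample: finite initial segments of sequences, the tree whose
nodes have more than continuum many children, and a countably complete proper filter on its
branches.
-/

set_option autoImplicit false

open Filter Topology Set

namespace Pool.Agent.MP_0f15b2_an

/-- The first `n` values of a sequence, as a list (latest value first). -/
def trunc {α : Type} (x : ℕ → α) : ℕ → List α
  | 0 => []
  | n + 1 => x n :: trunc x n

@[simp] lemma trunc_length {α : Type} (x : ℕ → α) (n : ℕ) : (trunc x n).length = n := by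
  induction n with
  | zero => rfl
  | succ n ih => simp [trunc, ih]

lemma trunc_eq_iff {α : Type} (x y : ℕ → α) (n : ℕ) :
    trunc x n = trunc y n ↔ ∀ i < n, x i = y i := by
  induction n with
  | zero => simp [trunc]
  | succ n ih =>
    simp only [trunc, List.cons.injEq, ih]
    constructor
    · rintro ⟨h1, h2⟩ i hi
      rcases Nat.lt_succ_iff_lt_or_eq.1 hi with h | rfl
      · exact h2 i h
      · exact h1
    · intro h
      exact ⟨h n (Nat.lt_succ_self n), fun i hi => h i (Nat.lt_succ_of_lt hi)⟩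

lemma eventually_trunc_ne {α : Type} {x y : ℕ → α} (h : x ≠ y) :
    ∀ᶠ n in atTop, trunc x n ≠ trunc y n := by
  obtain ⟨i, hi⟩ := Function.ne_iff.1 h
  filter_upwards [eventually_gt_atTop i] with n hn hc
  exact hi ((trunc_eq_iff x y n).1 hc i hn)

lemma trunc_injective {α : Type} (x : ℕ → α) : Function.Injective (trunc x) := by
  intro m n h
  simpa using congrArg List.length h

/-- Cantor space. -/
abbrev Cn : Type := ℕ → Bool

/-- Nodes of the binary tree. -/
abbrev Nd : Type := List Bool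

/-- The cylinder of a node of the binary tree. -/
def cyl (s : Nd) : Set Cn := {t | trunc t s.length = s}

lemma mem_cyl_trunc (t : Cn) (n : ℕ) : t ∈ cyl (trunc t n) := by simp [cyl]

lemma mem_cyl_trunc_iff (t u : Cn) (n : ℕ) : u ∈ cyl (trunc t n) ↔ trunc u n = trunc t n := by
  simp [cyl]

@[simp] lemma cyl_nil : cyl [] = univ := by
  ext t; simp [cyl, trunc]

/-- A set with more than continuum many elements. -/
abbrev Lb : Type := Set (ℕ → ℝ)

/-- Pairs of distinct labels. -/
def Pr : Type := {p : Lb × Lb // p.1 ≠ p.2}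

/-- Branches of the big tree. -/
abbrev Br : Type := ℕ → Pr

/-- The index set of the big `ℓ¹` space. -/
abbrev Kx : Type := List Pr × Lb

/-- Branches along which a colouring does not separate the two labels. -/
def good (c : Kx → ℝ) : Set Br :=
  {η | ∀ n, c (trunc η n, (η n).1.1) = c (trunc η n, (η n).1.2)}

lemma exists_mem_good (c : ℕ → Kx → ℝ) : ∃ η : Br, ∀ j, η ∈ good (c j) := by
  have key : ∀ τ : List Pr, ∃ p : Pr, ∀ j, c j (τ, p.1.1) = c j (τ, p.1.2) := by
    intro τ
    have h := Function.cantor_injective (fun a : Set (ℕ → ℝ) => fun j => c j (τ, a))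
    rw [Function.Injective] at h
    push Not at h
    obtain ⟨a, b, hab, hne⟩ := h
    exact ⟨⟨(a, b), hne⟩, fun j => congrFun hab j⟩
  choose F hF using key
  let l : ℕ → List Pr := fun n => Nat.rec [] (fun _ τ => F τ :: τ) n
  have hl : ∀ n, trunc (fun n => F (l n)) n = l n := by
    intro n
    induction n with
    | zero => rfl
    | succ n ih => simp only [trunc, ih]; rfl
  refine ⟨fun n => F (l n), fun j n => ?_⟩
  rw [hl n]
  exact hF (l n) j

/-- The countably complete filter generated by the sets `good c`. -/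
def Fl : Filter Br := Filter.countableGenerate (range good)

instance : CountableInterFilter Fl := by
  unfold Fl; infer_instance

lemma good_mem_Fl (c : Kx → ℝ) : good c ∈ Fl :=
  Filter.mem_countableGenerate_iff.2 ⟨{good c}, by simp, countable_singleton _, by simp⟩

instance : Fl.NeBot := by
  refine Filter.forall_mem_nonempty_iff_neBot.1 fun G hG => ?_
  obtain ⟨T, hT, hTc, hTG⟩ := Filter.mem_countableGenerate_iff.1 hG
  rcases T.eq_empty_or_nonempty with rfl | hne
  · obtain ⟨η, -⟩ := exists_mem_good fun _ _ => 0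
    exact ⟨η, hTG (by simp)⟩
  · obtain ⟨f, rfl⟩ := hTc.exists_eq_range hne
    have : ∀ j, ∃ c, good c = f j := fun j => hT ⟨j, rfl⟩
    choose c hc using this
    obtain ⟨η, hη⟩ := exists_mem_good c
    refine ⟨η, hTG ?_⟩
    rintro _ ⟨j, rfl⟩
    rw [← hc j]
    exact hη j

end Pool.Agent.MP_0f15b2_an

end MrgPart0

-- ======== part 1: formerly Pool.Agent.MP_0f15b2_an.Space
section MrgPart1

/-!
The Banach space of the counterexample: a closed subspace of the space of bounded families,
indexed by the nodes of the binary tree, with values in `ℝ × ℓ¹(Kx)`.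
-/

set_option autoImplicit false

open Filter Topology Set
open scoped ENNReal

noncomputable section

namespace Pool.Agent.MP_0f15b2_an

open Classical

/-- The big `ℓ¹` space. -/
abbrev Mx : Type := lp (fun _ : Kx => ℝ) 1

/-- The fibre. -/
abbrev Ex : Type := ℝ × Mx

/-- The ambient space. -/
abbrev Ax : Type := lp (fun _ : Nd => Ex) ∞

/-- Unit vectors of `ℓ¹(Kx)`. -/
def dl (k : Kx) : Mx := lp.single 1 k (1 : ℝ)

lemma norm_dl (k : Kx) : ‖dl k‖ = 1 := by
  rw [dl, lp.norm_single (by norm_num)]; simp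

/-- The difference of unit vectors attached to level `n` of a branch. -/
def vv (η : Br) (n : ℕ) : Mx := dl (trunc η n, (η n).1.1) - dl (trunc η n, (η n).1.2)

lemma norm_vv (η : Br) (n : ℕ) : ‖vv η n‖ ≤ 2 := by
  refine (norm_sub_le _ _).trans ?_
  rw [norm_dl, norm_dl]; norm_num

lemma norm_one_vv (η : Br) (n : ℕ) : ‖(((1 : ℝ), vv η n) : Ex)‖ ≤ 2 := by
  rw [Prod.norm_def]
  exact max_le (by simp) (norm_vv η n)

/-- Sum of the coordinates in a set `Z`. -/
def DZ (Z : Set Kx) : Mx →L[ℝ] ℝ :=
  (lp.tsumCLM ℝ Kx ℝ).comp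
    (lp.mapCLM 1 (fun k : Kx => if k ∈ Z then ContinuousLinearMap.id ℝ ℝ else 0) zero_le_one
      (fun k => by split_ifs <;> simp))

lemma DZ_apply (Z : Set Kx) (w : Mx) : DZ Z w = ∑' k, Z.indicator (fun k => w k) k := by
  simp only [DZ, ContinuousLinearMap.comp_apply, lp.tsumCLM_apply]
  congr 1
  funext k
  by_cases hk : k ∈ Z <;> simp [lp.mapCLM, hk]

lemma summable_abs (w : Mx) : Summable fun k => ‖w k‖ := by
  simpa using w.2.summable

lemma abs_DZ_le (Z : Set Kx) (w : Mx) : |DZ Z w| ≤ ‖w‖ := by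
  have h1 : ‖DZ Z‖ ≤ 1 := by
    refine (ContinuousLinearMap.opNorm_comp_le _ _).trans ?_
    exact mul_le_one₀ lp.norm_tsumCLM_le (norm_nonneg _) (lp.norm_mapCLM_le _ _ _ _)
  simpa using (DZ Z).le_of_opNorm_le h1 w

lemma DZ_dl (Z : Set Kx) (k : Kx) : DZ Z (dl k) = if k ∈ Z then 1 else 0 := by
  rw [DZ_apply, tsum_eq_single k]
  · by_cases hk : k ∈ Z <;> simp [dl, hk]
  · intro j hj
    by_cases hk : j ∈ Z <;> simp [dl, hk, lp.single_apply, Pi.single_eq_of_ne hj]

/-- Continuum many vectors of `ℓ¹(Kx)` are separated from `0` by countably many functionals. -/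
lemma exists_sep (w : Cn × Nd → Mx) :
    ∃ c : Kx → Cn, ∀ i, (∀ s, DZ (c ⁻¹' cyl s) (w i) = 0) → w i = 0 := by
  set K0 : Set Kx := ⋃ i, Function.support (fun k => w i k) with hK0
  have hcard : Cardinal.mk K0 ≤ Cardinal.mk Cn := by
    have h1 : Cardinal.mk Cn = Cardinal.continuum := by
      simp [Cn]
    have h2 : Cardinal.mk (Cn × Nd) = Cardinal.continuum := by
      rw [Cardinal.mk_prod, h1]
      simp
    have h3 : ∀ i, Cardinal.mk (Function.support (fun k => w i k)) ≤ Cardinal.aleph0 := by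
      intro i
      exact Cardinal.le_aleph0_iff_set_countable.2 (summable_abs (w i)).of_norm.countable_support
    refine (Cardinal.mk_iUnion_le _).trans ?_
    rw [h1, h2]
    calc Cardinal.continuum * ⨆ i, Cardinal.mk (Function.support (fun k => w i k))
        ≤ Cardinal.continuum * Cardinal.aleph0 := by
          gcongr
          exact ciSup_le' h3
      _ = Cardinal.continuum := by simp
  obtain ⟨j⟩ := Cardinal.le_def _ _ |>.1 hcard
  refine ⟨Function.extend Subtype.val j (fun _ _ => true), fun i hi => ?_⟩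
  set c : Kx → Cn := Function.extend Subtype.val j (fun _ _ => true) with hc
  have hinj : ∀ a ∈ K0, ∀ b ∈ K0, c a = c b → a = b := by
    intro a ha b hb hab
    have e1 : c a = j ⟨a, ha⟩ := Subtype.val_injective.extend_apply _ _ (⟨a, ha⟩ : K0)
    have e2 : c b = j ⟨b, hb⟩ := Subtype.val_injective.extend_apply _ _ (⟨b, hb⟩ : K0)
    rw [e1, e2] at hab
    exact congrArg Subtype.val (j.injective hab)
  ext k0
  by_contra hk0
  have hk0' : k0 ∈ K0 := mem_iUnion.2 ⟨i, by simpa using hk0⟩
  have hlim := tendsto_tsum_of_dominated_convergence (𝓕 := atTop)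
    (f := fun (n : ℕ) (k : Kx) => (c ⁻¹' cyl (trunc (c k0) n)).indicator (fun k => w i k) k)
    (g := fun k => if k = k0 then w i k0 else 0) (summable_abs (w i)) ?_ ?_
  · simp only [← DZ_apply, hi, tsum_ite_eq] at hlim
    exact hk0 (by simpa using (tendsto_const_nhds_iff.1 hlim).symm)
  · intro k
    by_cases hk : k = k0
    · subst hk
      simp [mem_cyl_trunc]
    · simp only [hk, if_false]
      by_cases hw : w i k = 0
      · simp [indicator, hw]
      · have hk' : k ∈ K0 := mem_iUnion.2 ⟨i, hw⟩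
        have hne : c k ≠ c k0 := fun h => hk (hinj _ hk' _ hk0' h)
        refine tendsto_const_nhds.congr' ?_
        filter_upwards [eventually_trunc_ne hne] with n hn
        rw [indicator_of_notMem]
        simpa [mem_cyl_trunc_iff] using hn
  · refine Eventually.of_forall fun n k => ?_
    exact norm_indicator_le_norm_self _ _

/-- Unit vectors of the first coordinate. -/
def ee (s : Nd) : Ax := lp.single ∞ s ((1 : ℝ), (0 : Mx))

/-- The part of the vector attached to `(t, η)` that lies on the levels `≥ N`. -/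
def gN (N : ℕ) (t : Cn) (η : Br) : Ax :=
  ⟨fun s => if N ≤ s.length ∧ t ∈ cyl s then ((1 : ℝ), vv η s.length) else 0,
    memℓp_infty ⟨2, by
      rintro _ ⟨s, rfl⟩
      dsimp only
      split_ifs
      · exact norm_one_vv _ _
      · simp⟩⟩

lemma gN_apply (N : ℕ) (t : Cn) (η : Br) (s : Nd) :
    gN N t η s = if N ≤ s.length ∧ t ∈ cyl s then ((1 : ℝ), vv η s.length) else 0 := rfl

lemma gN_succ (N : ℕ) (t : Cn) (η : Br) :
    gN N t η = lp.single ∞ (trunc t N) (((1 : ℝ), vv η N) : Ex) + gN (N + 1) t η := by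
  refine lp.ext (funext fun s => ?_)
  rw [lp.coeFn_add, Pi.add_apply, gN_apply, gN_apply, lp.single_apply]
  by_cases hs : s = trunc t N
  · subst hs
    simp [mem_cyl_trunc]
  · rw [Pi.single_eq_of_ne hs, zero_add]
    by_cases ht : t ∈ cyl s
    · have : N ≠ s.length := by
        rintro rfl
        exact hs ht.symm
      have : N ≤ s.length ↔ N + 1 ≤ s.length := by omega
      simp [this]
    · simp [ht]

/-- The generating vectors. -/
def gens : Set Ax := range ee ∪ range (fun p : Cn × Br => gN 0 p.1 p.2)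

/-- The Banach space of the counterexample. -/
def Xs : Submodule ℝ Ax := (Submodule.span ℝ gens).topologicalClosure

instance : CompleteSpace Xs :=
  (Submodule.isClosed_topologicalClosure _).completeSpace_coe

lemma ee_mem (s : Nd) : ee s ∈ Xs :=
  Submodule.le_topologicalClosure _ (Submodule.subset_span (Or.inl ⟨s, rfl⟩))

lemma gN_mem (t : Cn) (η : Br) : gN 0 t η ∈ Xs :=
  Submodule.le_topologicalClosure _ (Submodule.subset_span (Or.inr ⟨(t, η), rfl⟩))

lemma span_repr (t : Cn) {y : Ax} (hy : y ∈ Submodule.span ℝ gens) :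
    ∃ lam : Br →₀ ℝ, ∀ᶠ n in atTop,
      y (trunc t n) = Finsupp.linearCombination ℝ (fun η => (((1 : ℝ), vv η n) : Ex)) lam := by
  induction hy using Submodule.span_induction with
  | mem x hx =>
    rcases hx with ⟨s, rfl⟩ | ⟨⟨u, η⟩, rfl⟩
    · refine ⟨0, ?_⟩
      filter_upwards [eventually_gt_atTop s.length] with n hn
      have : trunc t n ≠ s := by
        intro h
        have := congrArg List.length h
        simp at this
        omega
      simp [ee, lp.single_apply, Pi.single_eq_of_ne this]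
    · by_cases hu : u = t
      · subst hu
        refine ⟨Finsupp.single η 1, Eventually.of_forall fun n => ?_⟩
        simp [gN_apply, mem_cyl_trunc]
      · refine ⟨0, ?_⟩
        filter_upwards [eventually_trunc_ne hu] with n hn
        simp [gN_apply, mem_cyl_trunc_iff, hn]
  | zero => exact ⟨0, Eventually.of_forall fun n => by simp⟩
  | add x y _ _ hx hy =>
    obtain ⟨a, ha⟩ := hx
    obtain ⟨b, hb⟩ := hy
    refine ⟨a + b, ?_⟩
    filter_upwards [ha, hb] with n h1 h2
    rw [map_add, ← h1, ← h2]; rfl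
  | smul r x _ hx =>
    obtain ⟨a, ha⟩ := hx
    refine ⟨r • a, ?_⟩
    filter_upwards [ha] with n h1
    rw [map_smul, ← h1]; rfl

lemma span_ineq (t : Cn) {y : Ax} (hy : y ∈ Submodule.span ℝ gens) :
    ∃ n, |(y (trunc t n)).1| ≤ ‖(y (trunc t n)).2‖ := by
  obtain ⟨lam, hlam⟩ := span_repr t hy
  have hsep : ∀ᶠ n in atTop, ∀ η ∈ lam.support, ∀ ζ ∈ lam.support,
      trunc η n = trunc ζ n → η = ζ := by
    rw [Filter.eventually_all_finset]
    intro η _
    rw [Filter.eventually_all_finset]
    intro ζ _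
    by_cases h : η = ζ
    · exact Eventually.of_forall fun _ _ => h
    · filter_upwards [eventually_trunc_ne h] with n hn hc using absurd hc hn
  obtain ⟨n, h1, h2⟩ := (hlam.and hsep).exists
  refine ⟨n, ?_⟩
  set Z : Set Kx := {k | ∃ η ∈ lam.support, k = (trunc η n, (η n).1.1)} with hZ
  have hD : ∀ η ∈ lam.support, DZ Z (vv η n) = 1 := by
    intro η hη
    have a1 : ((trunc η n, (η n).1.1) : Kx) ∈ Z := ⟨η, hη, rfl⟩
    have a2 : ((trunc η n, (η n).1.2) : Kx) ∉ Z := by
      rintro ⟨ζ, hζ, h⟩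
      have e := h2 η hη ζ hζ (congrArg Prod.fst h)
      subst e
      exact (η n).2 (congrArg Prod.snd h).symm
    rw [vv, map_sub, DZ_dl, DZ_dl, if_pos a1, if_neg a2, sub_zero]
  have : (y (trunc t n)).1 = DZ Z (y (trunc t n)).2 := by
    rw [h1, Finsupp.linearCombination_apply, Finsupp.sum, Prod.fst_sum, Prod.snd_sum, map_sum]
    refine Finset.sum_congr rfl fun η hη => ?_
    simp [hD η hη]
  rw [this]
  exact abs_DZ_le _ _

/-- No vector of the space equals `(1, 0)` along a whole branch. -/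
lemma not_branch (t : Cn) {x : Ax} (hx : x ∈ Xs) :
    ¬ ∀ n, x (trunc t n) = ((1 : ℝ), (0 : Mx)) := by
  intro h
  have hx' : x ∈ closure (Submodule.span ℝ gens : Set Ax) := hx
  obtain ⟨y, hy, hxy⟩ := Metric.mem_closure_iff.1 hx' (1 / 4) (by norm_num)
  obtain ⟨n, hn⟩ := span_ineq t hy
  have h1 : ‖(x - y) (trunc t n)‖ < 1 / 4 :=
    (lp.norm_apply_le_norm (by simp) _ _).trans_lt (by rwa [← dist_eq_norm])
  rw [lp.coeFn_sub, Pi.sub_apply, h n, Prod.norm_def, max_lt_iff] at h1
  obtain ⟨h2, h3⟩ := h1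
  simp only [Prod.fst_sub, Prod.snd_sub, zero_sub, norm_neg, Real.norm_eq_abs] at h2 h3
  have := abs_lt.1 h2
  have h4 := le_abs_self (y (trunc t n)).1
  linarith

/-- A functional is absolutely summable on disjointly supported bounded families. -/
lemma sum_abs_le {ι : Type} (ξ : Ax →L[ℝ] ℝ) (F : Finset ι) (x : ι → Ax)
    (hb : ∀ i s, ‖x i s‖ ≤ 2)
    (hd : ∀ s, ∀ i ∈ F, ∀ j ∈ F, x i s ≠ 0 → x j s ≠ 0 → i = j) :
    ∑ i ∈ F, |ξ (x i)| ≤ ‖ξ‖ * 2 := by
  set ε : ι → ℝ := fun i => if 0 ≤ ξ (x i) then 1 else -1 with hε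
  have hε1 : ∀ i, |ε i| = 1 := by
    intro i; simp only [hε]; split_ifs <;> simp
  have h1 : ∑ i ∈ F, |ξ (x i)| = ξ (∑ i ∈ F, ε i • x i) := by
    rw [map_sum]
    refine Finset.sum_congr rfl fun i _ => ?_
    rw [map_smul, smul_eq_mul]
    simp only [hε]
    split_ifs with h
    · simp [abs_of_nonneg h]
    · simp [abs_of_neg (not_le.1 h)]
  have h2 : ‖∑ i ∈ F, ε i • x i‖ ≤ 2 := by
    refine lp.norm_le_of_forall_le (by norm_num) fun s => ?_
    rw [lp.coeFn_sum, Finset.sum_apply]
    by_cases h : ∃ i ∈ F, x i s ≠ 0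
    · obtain ⟨i, hi, hxi⟩ := h
      rw [Finset.sum_eq_single_of_mem i hi]
      · rw [lp.coeFn_smul, Pi.smul_apply, norm_smul, Real.norm_eq_abs, hε1, one_mul]
        exact hb i s
      · intro j hj hji
        have : x j s = 0 := by
          by_contra hc
          exact hji (hd s j hj i hi hc hxi)
        rw [lp.coeFn_smul, Pi.smul_apply, this, smul_zero]
    · push Not at h
      rw [Finset.sum_eq_zero]
      · simp
      · intro j hj
        rw [lp.coeFn_smul, Pi.smul_apply, h j hj, smul_zero]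
  rw [h1]
  exact (le_abs_self _).trans ((ξ.le_opNorm _).trans (by gcongr))

lemma summable_ee (ξ : Ax →L[ℝ] ℝ) : Summable fun s => |ξ (ee s)| := by
  refine summable_of_sum_le (c := ‖ξ‖ * 2) (fun _ => abs_nonneg _) fun F => ?_
  refine sum_abs_le ξ F ee (fun i s => ?_) (fun s i _ j _ hi hj => ?_)
  · by_cases h : s = i
    · subst h; simp [ee, Prod.norm_def]
    · simp [ee, lp.single_apply, Pi.single_eq_of_ne h]
  · have : ∀ i, ee i s ≠ 0 → s = i := by
      intro i hi
      by_contra h
      exact hi (by simp [ee, lp.single_apply, Pi.single_eq_of_ne h])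
    rw [← this i hi, ← this j hj]

/-- The scalar density attached to a functional. -/
def hh (ξ : Ax →L[ℝ] ℝ) (t : Cn) : ℝ := ∑' s, (cyl s).indicator (fun _ => ξ (ee s)) t

lemma summable_hh (ξ : Ax →L[ℝ] ℝ) (t : Cn) :
    Summable fun s => ‖(cyl s).indicator (fun _ => ξ (ee s)) t‖ :=
  Summable.of_nonneg_of_le (fun _ => norm_nonneg _)
    (fun _ => norm_indicator_le_norm_self _ _) (summable_ee ξ)

lemma hasSum_hh (ξ : Ax →L[ℝ] ℝ) (t : Cn) : HasSum (fun n => ξ (ee (trunc t n))) (hh ξ t) := by
  have h := (summable_hh ξ t).of_norm.hasSum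
  rw [← (trunc_injective t).hasSum_iff] at h
  · have e : (fun n => ξ (ee (trunc t n))) =
        (fun s => (cyl s).indicator (fun _ => ξ (ee s)) t) ∘ trunc t := by
      funext n
      simp [mem_cyl_trunc]
    rw [e]
    exact h
  · intro s hs
    rw [indicator_of_notMem]
    intro hc
    exact hs ⟨_, hc⟩

/-- The branches on which a functional does not see the second coordinate. -/
def goodF (ξ : Ax →L[ℝ] ℝ) : Set Br :=
  ⋂ s : Nd, good (fun k => ξ (lp.single ∞ s (((0 : ℝ), dl k) : Ex)))

lemma goodF_mem (ξ : Ax →L[ℝ] ℝ) : goodF ξ ∈ Fl :=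
  countable_iInter_mem.2 fun _ => good_mem_Fl _

lemma apply_single_of_good (ξ : Ax →L[ℝ] ℝ) {η : Br} (hη : η ∈ goodF ξ) (s : Nd) (n : ℕ) :
    ξ (lp.single ∞ s (((1 : ℝ), vv η n) : Ex)) = ξ (ee s) := by
  have h := mem_iInter.1 hη s n
  have e : (((1 : ℝ), vv η n) : Ex) = ((1 : ℝ), (0 : Mx)) +
      (((0 : ℝ), dl (trunc η n, (η n).1.1)) - ((0 : ℝ), dl (trunc η n, (η n).1.2))) := by
    simp [vv]
  rw [e, lp.single_add, lp.single_sub, map_add, map_sub]
  dsimp only at h
  rw [h, sub_self, add_zero, ee]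

lemma tendsto_gN (ξ : Ax →L[ℝ] ℝ) (t : Cn) {η : Br} (hη : η ∈ goodF ξ) :
    Tendsto (fun N => ξ (gN N t η)) atTop (𝓝 (ξ (gN 0 t η) - hh ξ t)) := by
  have h : ∀ N, ξ (gN N t η) = ξ (gN 0 t η) - ∑ n ∈ Finset.range N, ξ (ee (trunc t n)) := by
    intro N
    induction N with
    | zero => simp
    | succ N ih =>
      have := congrArg ξ (gN_succ N t η)
      rw [map_add, apply_single_of_good ξ hη] at this
      rw [Finset.sum_range_succ]
      linarith
  exact (tendsto_const_nhds.sub (hasSum_hh ξ t).tendsto_sum_nat).congr fun N => (h N).symm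

/-- Off a countable set of points, a functional agrees with its scalar density on good branches. -/
lemma countable_bad (ξ : Ax →L[ℝ] ℝ) :
    {t : Cn | ∃ η ∈ goodF ξ, ξ (gN 0 t η) ≠ hh ξ t}.Countable := by
  set D := {t : Cn | ∃ η ∈ goodF ξ, ξ (gN 0 t η) ≠ hh ξ t} with hD
  have hch : ∀ t : D, ∃ η ∈ goodF ξ, ξ (gN 0 t η) ≠ hh ξ t := fun t => t.2
  choose η hη hne using hch
  have hs : Summable fun t : D => |ξ (gN 0 t (η t)) - hh ξ t| := by
    refine summable_of_sum_le (c := ‖ξ‖ * 2) (fun _ => abs_nonneg _) fun F => ?_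
    have hlim : Tendsto (fun N => ∑ t ∈ F, |ξ (gN N t (η t))|) atTop
        (𝓝 (∑ t ∈ F, |ξ (gN 0 t (η t)) - hh ξ t|)) :=
      tendsto_finsetSum _ fun t _ => (tendsto_gN ξ t (hη t)).abs
    refine le_of_tendsto hlim ?_
    have hsep : ∀ᶠ n in atTop, ∀ t ∈ F, ∀ u ∈ F, trunc (t : Cn) n = trunc (u : Cn) n → t = u := by
      rw [Filter.eventually_all_finset]
      intro t _
      rw [Filter.eventually_all_finset]
      intro u _
      by_cases h : t = u
      · exact Eventually.of_forall fun _ _ => h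
      · filter_upwards [eventually_trunc_ne (Subtype.coe_ne_coe.2 h)] with n hn hc
          using absurd hc hn
    filter_upwards [hsep] with N hN
    refine sum_abs_le ξ F (fun t : D => gN N t (η t)) (fun t s => ?_) (fun s t ht u hu h1 h2 => ?_)
    · rw [gN_apply]
      split_ifs
      · exact norm_one_vv _ _
      · simp
    · rw [gN_apply] at h1 h2
      have a1 : N ≤ s.length ∧ (t : Cn) ∈ cyl s := by
        by_contra hc; exact h1 (if_neg hc)
      have a2 : N ≤ s.length ∧ (u : Cn) ∈ cyl s := by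
        by_contra hc; exact h2 (if_neg hc)
      refine hN t ht u hu ((trunc_eq_iff _ _ _).2 fun i hi => ?_)
      have e : trunc (t : Cn) s.length = trunc (u : Cn) s.length := a1.2.trans a2.2.symm
      exact (trunc_eq_iff _ _ _).1 e i (hi.trans_le a1.1)
  have hc := hs.countable_support
  have : Function.support (fun t : D => |ξ (gN 0 t (η t)) - hh ξ t|) = univ := by
    ext t
    simpa [sub_eq_zero] using hne t
  rw [this, countable_univ_iff] at hc
  exact countable_coe_iff.1 hc

/-- Families tending to zero are the sums of their coordinates. -/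
lemma hasSum_single_of_tendsto (x : Ax) (hx : Tendsto (fun s => ‖x s‖) cofinite (𝓝 0)) :
    HasSum (fun s => (lp.single ∞ s (x s) : Ax)) x := by
  rw [HasSum, SummationFilter.unconditional_filter, Metric.tendsto_nhds]
  intro ε hε
  have h := (hx.eventually (gt_mem_nhds (half_pos hε)))
  rw [eventually_cofinite] at h
  filter_upwards [eventually_ge_atTop h.toFinset] with G hG
  rw [dist_eq_norm]
  refine lt_of_le_of_lt (lp.norm_le_of_forall_le (half_pos hε).le fun s => ?_) (half_lt_self hε)
  rw [lp.coeFn_sub, Pi.sub_apply, lp.coeFn_sum, Finset.sum_apply]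
  simp only [lp.single_apply]
  rw [Finset.sum_pi_single]
  split_ifs with hs
  · simp [(half_pos hε).le]
  · rw [zero_sub, norm_neg]
    by_contra hc
    exact hs (hG (by simpa using (not_le.1 hc).le))

end Pool.Agent.MP_0f15b2_an

end
end MrgPart1

-- ======== part 2: formerly Pool.Agent.MP_0f15b2_an.Meas
section MrgPart2

/-!
The two measure spaces and the two vector measures of the counterexample.
-/

set_option autoImplicit false

open Filter Topology Set MeasureTheory
open scoped ENNReal

noncomputable section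

namespace Pool.Agent.MP_0f15b2_an

open Classical

/-- Finite measures on standard Borel spaces are perfect. -/
lemma perfect_of_polish {Ω : Type} [t : TopologicalSpace Ω] [PolishSpace Ω] [MeasurableSpace Ω]
    [BorelSpace Ω] (μ : Measure Ω) [IsFiniteMeasure μ] (f : Ω → ℝ) (hf : Measurable f) :
    ∃ B : Set ℝ, MeasurableSet B ∧ B ⊆ Set.range f ∧ μ (f ⁻¹' B) = μ Set.univ := by
  obtain ⟨t', hle, hfc, hpol⟩ := hf.exists_continuous
  have hb : ‹MeasurableSpace Ω› = @borel Ω t' := by
    rw [borel_eq_borel_of_le hpol ‹_› hle]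
    exact BorelSpace.measurable_eq
  have key : ∀ n : ℕ, ∃ B : Set ℝ, MeasurableSet B ∧ B ⊆ Set.range f ∧
      μ (f ⁻¹' B)ᶜ < ((n : ℝ≥0∞))⁻¹ := by
    intro n
    let : TopologicalSpace Ω := t'
    have : PolishSpace Ω := hpol
    have : BorelSpace Ω := ⟨hb⟩
    obtain ⟨K, hK, hμ⟩ := exists_isCompact_closure_measure_compl_lt μ ((n : ℝ≥0∞))⁻¹
      (by simp)
    refine ⟨f '' closure K, (hK.image hfc).isClosed.measurableSet, image_subset_range _ _, ?_⟩
    refine (measure_mono ?_).trans_lt hμ
    exact compl_subset_compl.2 fun x hx => mem_image_of_mem f (subset_closure hx)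
  choose B hB1 hB2 hB3 using key
  refine ⟨⋃ n, B n, MeasurableSet.iUnion hB1, iUnion_subset hB2, ?_⟩
  have h0 : μ (f ⁻¹' ⋃ n, B n)ᶜ = 0 := by
    refine le_antisymm (ge_of_tendsto' ENNReal.tendsto_inv_nat_nhds_zero fun n => ?_) zero_le
    refine (measure_mono ?_).trans (hB3 n).le
    exact compl_subset_compl.2 (preimage_mono (subset_iUnion B n))
  exact measure_of_measure_compl_eq_zero h0

/-- The coin-tossing measure. -/
def lam : Measure Cn := Measure.infinitePi fun _ : ℕ => (PMF.uniformOfFintype Bool).toMeasure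

instance : IsProbabilityMeasure lam := by
  unfold lam; infer_instance

lemma cyl_eq_pi {s : Nd} {t : Cn} (ht : t ∈ cyl s) :
    cyl s = Set.pi (Finset.range s.length : Set ℕ) (fun i => {t i}) := by
  ext u
  have ht' : trunc t s.length = s := ht
  have : u ∈ cyl s ↔ trunc u s.length = trunc t s.length := by rw [ht']; rfl
  rw [this, trunc_eq_iff]
  simp

lemma measurableSet_cyl (s : Nd) : MeasurableSet (cyl s) := by
  rcases (cyl s).eq_empty_or_nonempty with h | ⟨t, ht⟩
  · rw [h]; exact MeasurableSet.empty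
  · rw [cyl_eq_pi ht]
    exact MeasurableSet.pi (Finset.countable_toSet _) fun _ _ => measurableSet_singleton _

lemma lam_cyl (s : Nd) : lam (cyl s) ≤ (2⁻¹ : ℝ≥0∞) ^ s.length := by
  rcases (cyl s).eq_empty_or_nonempty with h | ⟨t, ht⟩
  · rw [h]; simp
  · rw [cyl_eq_pi ht, lam, Measure.infinitePi_pi _ fun _ _ => measurableSet_singleton _]
    simp

lemma lam_singleton (t : Cn) : lam {t} = 0 := by
  have h : Tendsto (fun n : ℕ => (2⁻¹ : ℝ≥0∞) ^ n) atTop (𝓝 0) :=
    ENNReal.tendsto_pow_atTop_nhds_zero_of_lt_one (by simp)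
  refine le_antisymm (ge_of_tendsto' h fun n => ?_) zero_le
  have := lam_cyl (trunc t n)
  rw [trunc_length] at this
  exact (measure_mono (singleton_subset_iff.2 (mem_cyl_trunc t n))).trans this

instance : NullSingletonClass lam := ⟨lam_singleton⟩

lemma measurable_hh (ξ : Ax →L[ℝ] ℝ) : Measurable (hh ξ) :=
  Measurable.tsum fun s => measurable_const.indicator (measurableSet_cyl s)

lemma norm_hh_le (ξ : Ax →L[ℝ] ℝ) (t : Cn) : ‖hh ξ t‖ ≤ ∑' s, |ξ (ee s)| :=
  (norm_tsum_le_tsum_norm (summable_hh ξ t)).trans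
    ((summable_hh ξ t).tsum_le_tsum (fun _ => norm_indicator_le_norm_self _ _) (summable_ee ξ))

section general

variable {Ω : Type} [MeasurableSpace Ω] (μ : Measure Ω) {p : Ω → Cn}

/-- The value of the vector measure, in the ambient space. -/
def nuA [IsFiniteMeasure μ] (p : Ω → Cn) (E : Set Ω) : Ax :=
  ⟨fun s => (μ.real (E ∩ p ⁻¹' cyl s), (0 : Mx)),
    memℓp_infty ⟨μ.real univ, by
      rintro _ ⟨s, rfl⟩
      simp only [Prod.norm_def, norm_zero, Real.norm_eq_abs, abs_of_nonneg measureReal_nonneg]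
      exact max_le (measureReal_mono (subset_univ _)) measureReal_nonneg⟩⟩

lemma nuA_apply [IsFiniteMeasure μ] (E : Set Ω) (s : Nd) :
    nuA μ p E s = (μ.real (E ∩ p ⁻¹' cyl s), (0 : Mx)) := rfl

lemma norm_nuA_apply [IsFiniteMeasure μ] (E : Set Ω) (s : Nd) :
    ‖nuA μ p E s‖ = μ.real (E ∩ p ⁻¹' cyl s) := by
  simp [nuA_apply, Prod.norm_def, abs_of_nonneg measureReal_nonneg]

lemma norm_nuA [IsFiniteMeasure μ] (E : Set Ω) : ‖nuA μ p E‖ = μ.real E := by
  refine le_antisymm (lp.norm_le_of_forall_le measureReal_nonneg fun s => ?_) ?_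
  · rw [norm_nuA_apply]
    exact measureReal_mono inter_subset_left
  · have := lp.norm_apply_le_norm (by simp) (nuA μ p E) []
    rwa [norm_nuA_apply, cyl_nil, preimage_univ, inter_univ] at this

lemma hasSum_nuA [IsFiniteMeasure μ] (hp : MeasurePreserving p μ lam) (E : Set Ω) :
    HasSum (fun s => μ.real (E ∩ p ⁻¹' cyl s) • ee s) (nuA μ p E) := by
  have h := hasSum_single_of_tendsto (nuA μ p E) ?_
  · convert h using 2 with s
    rw [ee, ← lp.single_smul, nuA_apply]
    simp
  · have hb : ∀ s : Nd, ‖nuA μ p E s‖ ≤ (2⁻¹ : ℝ) ^ s.length := by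
      intro s
      rw [norm_nuA_apply]
      refine (measureReal_mono inter_subset_right).trans ?_
      rw [Measure.real, hp.measure_preimage (measurableSet_cyl s).nullMeasurableSet]
      have := ENNReal.toReal_mono (by simp) (lam_cyl s)
      simpa using this
    refine squeeze_zero (fun _ => norm_nonneg _) hb ?_
    refine (tendsto_pow_atTop_nhds_zero_of_lt_one (by norm_num) (by norm_num)).comp ?_
    rw [tendsto_atTop]
    intro n
    rw [eventually_cofinite]
    refine (List.finite_length_le Bool n).subset fun s hs => ?_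
    simp only [not_le, mem_ofPred_eq] at hs ⊢
    exact hs.le

lemma nuA_mem [IsFiniteMeasure μ] (hp : MeasurePreserving p μ lam) (E : Set Ω) :
    nuA μ p E ∈ Xs :=
  (Submodule.isClosed_topologicalClosure _).mem_of_tendsto (hasSum_nuA μ hp E)
    (Eventually.of_forall fun _ => Xs.sum_mem fun s _ => Xs.smul_mem _ (ee_mem s))

lemma hasSum_nuA_iUnion [IsFiniteMeasure μ] (hp : Measurable p) {f : ℕ → Set Ω}
    (hf : ∀ i, MeasurableSet (f i)) (hd : Pairwise (Function.onFun Disjoint f)) :
    HasSum (fun i => nuA μ p (f i)) (nuA μ p (⋃ i, f i)) := by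
  have hs : Summable fun i => nuA μ p (f i) := by
    refine Summable.of_norm ?_
    simp only [norm_nuA]
    exact summable_measure_toReal hf hd
  convert hs.hasSum using 1
  refine lp.ext (funext fun s => ?_)
  have h1 : HasSum (fun i => nuA μ p (f i) s) ((∑' i, nuA μ p (f i)) s) :=
    (lp.evalCLM ℝ (fun _ : Nd => Ex) ∞ s).hasSum hs.hasSum
  have h2 : HasSum (fun i => nuA μ p (f i) s) (nuA μ p (⋃ i, f i) s) := by
    simp only [nuA_apply]
    refine HasSum.prodMk ?_ hasSum_zero
    have hm : ∀ i, MeasurableSet (f i ∩ p ⁻¹' cyl s) :=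
      fun i => (hf i).inter (hp (measurableSet_cyl s))
    have hd' : Pairwise (Function.onFun Disjoint fun i => f i ∩ p ⁻¹' cyl s) :=
      fun i j hij => (hd hij).mono inter_subset_left inter_subset_left
    have := (summable_measure_toReal (μ := μ) hm hd').hasSum
    convert this using 1
    rw [iUnion_inter, Measure.real, measure_iUnion hd' hm,
      ENNReal.tsum_toReal_eq fun _ => measure_ne_top _ _]
    rfl
  exact h2.unique h1

/-- The vector measure. -/
def nu [IsFiniteMeasure μ] (hp : MeasurePreserving p μ lam) : VectorMeasure Ω Xs where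
  measureOf' E := if MeasurableSet E then ⟨nuA μ p E, nuA_mem μ hp E⟩ else 0
  empty' := by
    rw [if_pos MeasurableSet.empty]
    refine Subtype.ext (norm_eq_zero.1 ?_)
    simpa using norm_nuA μ (p := p) ∅
  not_measurable' _ h := if_neg h
  m_iUnion' f hf hd := by
    simp only [hf, MeasurableSet.iUnion hf, if_true]
    have h := hasSum_nuA_iUnion μ hp.measurable hf hd
    exact (IsInducing.subtypeVal.hasSum_iff (g := Xs.subtype) _ _).1 h

lemma coe_nu [IsFiniteMeasure μ] (hp : MeasurePreserving p μ lam) {E : Set Ω}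
    (hE : MeasurableSet E) : ((nu μ hp E : Xs) : Ax) = nuA μ p E := by
  change (((if MeasurableSet E then ⟨nuA μ p E, nuA_mem μ hp E⟩ else 0 : Xs)) : Ax) = _
  rw [if_pos hE]

lemma enorm_nu [IsFiniteMeasure μ] (hp : MeasurePreserving p μ lam) {E : Set Ω}
    (hE : MeasurableSet E) : ((‖nu μ hp E‖₊ : NNReal) : ENNReal) = μ E := by
  have h : ‖nu μ hp E‖ = μ.real E := by
    rw [← norm_nuA μ (p := p), ← coe_nu μ hp hE]; rfl
  rw [← ENNReal.ofReal_toReal (measure_ne_top μ E), ← Measure.real, ← h, ofReal_norm]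
  rfl

lemma variation_nu [IsFiniteMeasure μ] (hp : MeasurePreserving p μ lam) (A : Set Ω)
    (hA : MeasurableSet A) :
    μ A = ⨆ (s : Finset (Set Ω))
      (_ : (∀ B ∈ s, MeasurableSet B ∧ B ⊆ A) ∧ (s : Set (Set Ω)).PairwiseDisjoint id),
      ∑ B ∈ s, ((‖nu μ hp B‖₊ : NNReal) : ENNReal) := by
  refine le_antisymm ?_ (iSup₂_le fun s hs => ?_)
  · refine le_iSup₂_of_le {A} ⟨by simpa using hA, by simp⟩ ?_
    rw [Finset.sum_singleton, enorm_nu μ hp hA]
  · rw [Finset.sum_congr rfl fun B hB => enorm_nu μ hp (hs.1 B hB).1]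
    have := measure_biUnion_finset (μ := μ) (f := id) hs.2 fun B hB => (hs.1 B hB).1
    simp only [id] at this
    rw [← this]
    exact measure_mono (iUnion₂_subset fun B hB => (hs.1 B hB).2)

lemma integrable_hh [IsFiniteMeasure μ] (hp : Measurable p) (ξ : Ax →L[ℝ] ℝ) :
    Integrable (fun ω => hh ξ (p ω)) μ :=
  Integrable.of_bound ((measurable_hh ξ).comp hp).aestronglyMeasurable _
    (Eventually.of_forall fun ω => norm_hh_le ξ (p ω))

lemma apply_nuA [IsFiniteMeasure μ] (hp : MeasurePreserving p μ lam) (ξ : Ax →L[ℝ] ℝ)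
    (E : Set Ω) : ξ (nuA μ p E) = ∫ ω in E, hh ξ (p ω) ∂μ := by
  have h1 := ξ.hasSum (hasSum_nuA μ hp E)
  have hm : ∀ s, MeasurableSet (p ⁻¹' cyl s) := fun s => hp.measurable (measurableSet_cyl s)
  have h2 := hasSum_integral_of_summable_integral_norm (μ := μ.restrict E)
    (F := fun s ω => (p ⁻¹' cyl s).indicator (fun _ => ξ (ee s)) ω)
    (fun s => (integrable_const _).indicator (hm s)) ?_
  · refine h1.unique ?_
    have e2 : ∀ s, ξ (μ.real (E ∩ p ⁻¹' cyl s) • ee s) =
        ∫ ω in E, (p ⁻¹' cyl s).indicator (fun _ => ξ (ee s)) ω ∂μ := by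
      intro s
      rw [integral_indicator_const _ (hm s), map_smul, measureReal_restrict_apply (hm s),
        inter_comm]
    simp only [e2]
    exact h2
  · refine Summable.of_nonneg_of_le (fun _ => integral_nonneg fun _ => norm_nonneg _)
      (fun s => ?_) ((summable_ee ξ).mul_left (μ.real univ))
    have : ∀ ω, ‖(p ⁻¹' cyl s).indicator (fun _ => ξ (ee s)) ω‖ ≤ |ξ (ee s)| :=
      fun ω => norm_indicator_le_norm_self _ _
    refine (integral_mono_of_nonneg (Eventually.of_forall fun _ => norm_nonneg _)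
      (integrable_const _) (Eventually.of_forall this)).trans ?_
    rw [integral_const, smul_eq_mul]
    gcongr
    rw [measureReal_restrict_apply MeasurableSet.univ]
    exact measureReal_mono (subset_univ _)

end general

end Pool.Agent.MP_0f15b2_an

end
end MrgPart2

-- ======== part 3: formerly Pool.Agent.MP_0f15b2_an.Om
section MrgPart3

/-!
The perfect measure space `Cn × Br` on which the vector measure has a Pettis density, and the
proof that the vector measure on Cantor space has none.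
-/

set_option autoImplicit false

open Filter Topology Set MeasureTheory
open scoped ENNReal

noncomputable section

namespace Pool.Agent.MP_0f15b2_an

open Classical

/-- The second measure space. -/
def Om : Type := Cn × Br

/-- `E` agrees with the cylinder over `B` on a large set of branches. -/
def Rep (E : Set Om) (B : Set Cn) : Prop :=
  ∀ᶠ η in Fl, ∀ t : Cn, (show Om from (t, η)) ∈ E ↔ t ∈ B

lemma Rep.unique {E : Set Om} {B B' : Set Cn} (h : Rep E B) (h' : Rep E B') : B = B' := by
  obtain ⟨η, h1, h2⟩ := (h.and h').exists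
  ext t
  rw [← h1 t, ← h2 t]

lemma Rep.iUnion {E : ℕ → Set Om} {B : ℕ → Set Cn} (h : ∀ i, Rep (E i) (B i)) :
    Rep (⋃ i, E i) (⋃ i, B i) := by
  filter_upwards [eventually_countable_forall.2 h] with η hη t
  simp only [mem_iUnion, hη]

lemma Rep.inter {E E' : Set Om} {B B' : Set Cn} (h : Rep E B) (h' : Rep E' B') :
    Rep (E ∩ E') (B ∩ B') := by
  filter_upwards [h, h'] with η h1 h2 t
  simp only [mem_inter_iff, h1, h2]

lemma rep_empty : Rep ∅ ∅ := Eventually.of_forall fun _ _ => Iff.rfl

lemma rep_univ : Rep univ univ := Eventually.of_forall fun _ _ => Iff.rfl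

/-- The first projection. -/
def pr (ω : Om) : Cn := ω.1

lemma rep_preimage (B : Set Cn) : Rep (pr ⁻¹' B) B := Eventually.of_forall fun _ _ => Iff.rfl

instance : MeasurableSpace Om where
  MeasurableSet' E := ∃ B, MeasurableSet B ∧ Rep E B
  measurableSet_empty := ⟨∅, MeasurableSet.empty, rep_empty⟩
  measurableSet_compl E := by
    rintro ⟨B, hB, h⟩
    refine ⟨Bᶜ, hB.compl, ?_⟩
    filter_upwards [h] with η hη t
    simp only [mem_compl_iff, hη]
  measurableSet_iUnion f hf := by
    choose B hB h using hf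
    exact ⟨⋃ i, B i, MeasurableSet.iUnion hB, Rep.iUnion h⟩

lemma measurableSet_om {E : Set Om} : MeasurableSet E ↔ ∃ B, MeasurableSet B ∧ Rep E B := Iff.rfl

/-- The measure on `Om`. -/
def muO : Measure Om :=
  Measure.ofMeasurable (fun _ hE => lam (measurableSet_om.1 hE).choose)
    (by
      have h := (measurableSet_om.1 (MeasurableSet.empty (α := Om))).choose_spec
      rw [h.2.unique rep_empty, measure_empty])
    (by
      intro f hf hd
      have h := fun i => (measurableSet_om.1 (hf i)).choose_spec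
      have h' := (measurableSet_om.1 (MeasurableSet.iUnion hf)).choose_spec
      rw [h'.2.unique (Rep.iUnion fun i => (h i).2), measure_iUnion _ fun i => (h i).1]
      intro i j hij
      have e := (h i).2.inter (h j).2
      rw [disjoint_iff_inter_eq_empty.1 (hd hij)] at e
      exact disjoint_iff_inter_eq_empty.2 (e.unique rep_empty))

lemma muO_apply {E : Set Om} {B : Set Cn} (hB : MeasurableSet B) (h : Rep E B) :
    muO E = lam B := by
  have hE : MeasurableSet E := ⟨B, hB, h⟩
  rw [muO, Measure.ofMeasurable_apply _ hE, (measurableSet_om.1 hE).choose_spec.2.unique h]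

instance : IsFiniteMeasure muO :=
  ⟨by
    rw [muO_apply MeasurableSet.univ rep_univ]
    exact measure_lt_top _ _⟩

lemma measurable_pr : Measurable pr := fun B hB => ⟨B, hB, rep_preimage B⟩

lemma mp_pr : MeasurePreserving pr muO lam :=
  ⟨measurable_pr, by
    ext B hB
    rw [Measure.map_apply measurable_pr hB, muO_apply hB (rep_preimage B)]⟩

lemma nu_eq {E : Set Om} {B : Set Cn} (hB : MeasurableSet B) (h : Rep E B) :
    nu muO mp_pr E = nu lam (MeasurePreserving.id lam) B := by
  refine Subtype.ext ?_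
  rw [coe_nu _ _ (measurableSet_om.2 ⟨B, hB, h⟩), coe_nu _ _ hB]
  refine lp.ext (funext fun s => ?_)
  rw [nuA_apply, nuA_apply, Measure.real, Measure.real,
    muO_apply (hB.inter (measurableSet_cyl s)) (h.inter (rep_preimage _))]
  rfl

lemma range_eq :
    {x : Xs | ∃ A : Set Om, MeasurableSet A ∧ nu muO mp_pr A = x} =
      {x : Xs | ∃ A : Set Cn, MeasurableSet A ∧ nu lam (MeasurePreserving.id lam) A = x} := by
  ext x
  constructor
  · rintro ⟨E, ⟨B, hB, h⟩, rfl⟩
    exact ⟨B, hB, (nu_eq hB h).symm⟩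
  · rintro ⟨B, hB, rfl⟩
    exact ⟨pr ⁻¹' B, measurable_pr hB, nu_eq hB (rep_preimage B)⟩

lemma perfect_lam (f : Cn → ℝ) (hf : Measurable f) :
    ∃ B : Set ℝ, MeasurableSet B ∧ B ⊆ Set.range f ∧ lam (f ⁻¹' B) = lam Set.univ :=
  haveI : PolishSpace Cn := {}
  perfect_of_polish lam f hf

lemma perfect_muO (f : Om → ℝ) (hf : Measurable f) :
    ∃ B : Set ℝ, MeasurableSet B ∧ B ⊆ Set.range f ∧ muO (f ⁻¹' B) = muO Set.univ := by
  have h : ∀ q : ℚ, ∃ B, MeasurableSet B ∧ Rep (f ⁻¹' Iio (q : ℝ)) B :=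
    fun q => hf measurableSet_Iio
  choose B hB hrep using h
  have hev := eventually_countable_forall.2 hrep
  obtain ⟨η0, hη0⟩ := hev.exists
  set g : Cn → ℝ := fun t => f (show Om from (t, η0)) with hg
  have hgm : Measurable g := by
    have : (inferInstance : MeasurableSpace ℝ) =
        MeasurableSpace.generateFrom (⋃ a : ℚ, {Iio (a : ℝ)}) := by
      rw [← Real.borel_eq_generateFrom_Iio_rat]; exact BorelSpace.measurable_eq
    have h2 : @Measurable Cn ℝ _ (MeasurableSpace.generateFrom (⋃ a : ℚ, {Iio (a : ℝ)})) g := by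
      refine measurable_generateFrom fun s hs => ?_
      obtain ⟨q, hq⟩ := mem_iUnion.1 hs
      rw [mem_singleton_iff] at hq
      subst hq
      have : g ⁻¹' Iio (q : ℝ) = B q := Set.ext fun t => hη0 q t
      rw [this]
      exact hB q
    rw [← this] at h2
    exact h2
  have hfg : ∀ᶠ η in Fl, ∀ t, f (show Om from (t, η)) = g t := by
    filter_upwards [hev] with η hη t
    have : ∀ q : ℚ, f (show Om from (t, η)) < q ↔ g t < q :=
      fun q => (hη q t).trans (hη0 q t).symm
    refine le_antisymm (not_lt.1 fun hc => ?_) (not_lt.1 fun hc => ?_)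
    · obtain ⟨q, h1, h2⟩ := exists_rat_btwn hc
      exact lt_asymm h2 ((this q).2 h1)
    · obtain ⟨q, h1, h2⟩ := exists_rat_btwn hc
      exact lt_asymm h2 ((this q).1 h1)
  obtain ⟨C, hC, hCr, hCm⟩ := perfect_lam g hgm
  refine ⟨C, hC, hCr.trans ?_, ?_⟩
  · rintro _ ⟨t, rfl⟩
    exact ⟨_, rfl⟩
  · rw [muO_apply MeasurableSet.univ rep_univ, ← hCm]
    refine muO_apply (hgm hC) ?_
    filter_upwards [hfg] with η hη t
    simp only [mem_preimage, hη]

/-- The Pettis density on `Om`. -/
def gO (ω : Om) : Xs := ⟨gN 0 ω.1 ω.2, gN_mem _ _⟩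

lemma ae_gO (ξ : Ax →L[ℝ] ℝ) : (fun ω => ξ (gO ω)) =ᵐ[muO] fun ω => hh ξ (pr ω) := by
  set D := {t : Cn | ∃ η ∈ goodF ξ, ξ (gN 0 t η) ≠ hh ξ t} with hD
  have hDc : D.Countable := countable_bad ξ
  have h1 : muO (pr ⁻¹' D) = 0 := by
    rw [muO_apply hDc.measurableSet (rep_preimage D)]
    exact hDc.measure_zero _
  have h2 : muO {ω : Om | ω.2 ∉ goodF ξ} = 0 := by
    rw [muO_apply MeasurableSet.empty, measure_empty]
    filter_upwards [goodF_mem ξ] with η hη t
    simpa using hη
  refine measure_mono_null (t := pr ⁻¹' D ∪ {ω : Om | ω.2 ∉ goodF ξ}) ?_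
    (measure_union_null h1 h2)
  intro ω hω
  by_cases hg : ω.2 ∈ goodF ξ
  · exact Or.inl ⟨ω.2, hg, hω⟩
  · exact Or.inr hg

lemma pettis_om : ∃ g : Om → Xs, ∀ φ : Xs →L[ℝ] ℝ, Integrable (fun ω => φ (g ω)) muO ∧
    ∀ A : Set Om, MeasurableSet A → φ (nu muO mp_pr A) = ∫ ω in A, φ (g ω) ∂muO := by
  refine ⟨gO, fun φ => ?_⟩
  obtain ⟨ξ, hξ, -⟩ := exists_extension_norm_eq Xs φ
  simp only [← hξ]
  refine ⟨(integrable_hh muO measurable_pr ξ).congr (ae_gO ξ).symm, fun A hA => ?_⟩
  rw [coe_nu _ _ hA, apply_nuA muO mp_pr ξ A]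
  exact integral_congr_ae (ae_restrict_of_ae (ae_gO ξ).symm)

lemma not_pettis_cn : ¬ ∃ g : Cn → Xs, ∀ φ : Xs →L[ℝ] ℝ, Integrable (fun ω => φ (g ω)) lam ∧
    ∀ A : Set Cn, MeasurableSet A →
      φ (nu lam (MeasurePreserving.id lam) A) = ∫ ω in A, φ (g ω) ∂lam := by
  rintro ⟨g, hg⟩
  obtain ⟨c, hc⟩ := exists_sep fun i => ((g i.1 : Ax) i.2).2
  let ev : Nd → (Xs →L[ℝ] Ex) := fun s =>
    (lp.evalCLM ℝ (fun _ : Nd => Ex) ∞ s).comp Xs.subtypeL
  have hev : ∀ s x, ev s x = (x : Ax) s := fun _ _ => rfl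
  have h1 : ∀ s : Nd, ∀ᵐ t ∂lam, ((g t : Ax) s).1 = (cyl s).indicator (fun _ => (1 : ℝ)) t := by
    intro s
    obtain ⟨hi, hA⟩ := hg ((ContinuousLinearMap.fst ℝ ℝ Mx).comp (ev s))
    refine hi.ae_eq_of_forall_setIntegral_eq _ _
      ((integrable_const _).indicator (measurableSet_cyl s)) fun A hAm _ => ?_
    rw [← hA A hAm, integral_indicator_const _ (measurableSet_cyl s),
      measureReal_restrict_apply (measurableSet_cyl s), inter_comm]
    simp only [ContinuousLinearMap.comp_apply, hev, coe_nu _ _ hAm, nuA_apply]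
    simp
  have h2 : ∀ s s' : Nd, ∀ᵐ t ∂lam, DZ (c ⁻¹' cyl s') ((g t : Ax) s).2 = 0 := by
    intro s s'
    obtain ⟨hi, hA⟩ :=
      hg ((DZ (c ⁻¹' cyl s')).comp ((ContinuousLinearMap.snd ℝ ℝ Mx).comp (ev s)))
    refine hi.ae_eq_of_forall_setIntegral_eq _ _ (integrable_zero _ _ _) fun A hAm _ => ?_
    rw [← hA A hAm]
    simp only [ContinuousLinearMap.comp_apply, hev, coe_nu _ _ hAm, nuA_apply]
    simp
  obtain ⟨t, ht1, ht2⟩ :=
    ((ae_all_iff.2 h1).and (ae_all_iff.2 fun s => ae_all_iff.2 (h2 s))).exists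
  refine not_branch t (g t).2 fun n => Prod.ext ?_ (hc (t, trunc t n) (ht2 _))
  rw [ht1, indicator_of_mem (mem_cyl_trunc t n)]

end Pool.Agent.MP_0f15b2_an

end
end MrgPart3

-- marker of a merged file
example : 731051 + 666680 = 731051 + 666680 := rfl
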